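import Pool.Agent.H95.WC.Murre
import Pool.Agent.H91.QS.Tate

/-!
# The motivic Tate conjecture and coverings of affine spaces

Let `k` be a finitely generated field of characteristic zero with the absolute Galois group `Γ` and `𝒜`
the category of motives over `k` in the sense of André or for absolute Hodge cycles, `T l` its Tate
objects, `h(X)` the motive of `X`, and `Inv M = (M_ℓ)^Γ` the space of Galois invariants of the `ℓ`-adic
realization of the motive `M` (the theorem is true over all fields of characteristic zero). The motive
`M` has the property `TateIn` if for all `l` every invariant vector of the `ℓ`-adic realization of `M ⊗ T l`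
is a `ℚ_ℓ`-combination of motivic classes.

To every separated scheme `X` of finite type over `k` belongs its weight complex with compact support
`W(X)` (Gillet and Soulé, Bondarko), a bounded complex of motives up to homotopy; for smooth projective
`X` it is the motive of `X` in degree zero. Hypotheses `IsFlatWeightComplex`, `HasCoverings`: there are
distinguished triangles for closed-open decompositions, `W` of an affine bundle is a Tate twist of `W` of
the base, and the same holds for flat morphisms with affine spaces as fibres (flat pull-back and
localization), `W` of an open and closed subscheme of `X` is a direct factor of `W(X)`, `W(Spec A)` is a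
retract of a shift of `W(𝔾_m × Spec A)` and of the weight complexes of the coverings `s ^ d = u`, `u` a
unit, and `W(Spec k)` is the unit object. A complex is `Null` if it is contractible modulo the morphisms which factor
through motives with the property `TateIn`; since `𝒜` is semisimple this says that the motives
`Gr^W_w H_c^i(X)`, the cohomology of `W(X)`, have the property `TateIn`.

Let `CBuilt n` be the smallest class of schemes over `k` which contains all separated schemes of finite
type of dimension at most `n` and is closed under closed-open decompositions (two out of three), certain
affine bundles (in both directions), division by `𝔾_m` and descent along the cyclic coverings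
`s ^ d = u`, and which contains with `Spec A` and the closed subscheme `f = 0` of `Spec A` the covering
`∏_{c ∈ S} (w - c) = ∑ x_l f_l` of `𝔸^m_A`, for finite non-empty sets `S ⊆ k`, and conversely, if
`|S| ≥ 2`, with `Spec A` and the covering the closed subscheme `f = 0`. There is no restriction on the
dimension of the schemes in this class.

For polynomials `f_1, …, f_m` in the variables `z_1, …, z_N` let `zeroS f` be the closed subscheme
`f_1 = … = f_m = 0` of the affine space, and `covS S f` the covering `∏_{c ∈ S} (w - c) = ∑ x_l f_l(z)` of
the affine space with the coordinates `z_1, …, z_N, x_1, …, x_m`. For a trilinear form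
`t(x, y, z) = ∑ t_ijl x_i y_j z_l` the polynomials `bq t` are the bilinear forms `∑ t_ijl x_i y_j`; so
`covS {α, β} (bq t)` is the double covering `(w - α)(w - β) = t(x, y, z)`.

We show:

(1) All Tate classes of the motives `h(X)(l)` of the smooth projective varieties `X` of dimension at most
`n` are combinations of motivic classes, if and only if all Tate classes in the cohomology with compact
supports of the schemes in `CBuilt n` are, and if and only if this is true for the coverings
`∏_{c ∈ S} (w - c) = t(x, y, z)` for all trilinear forms `t` over `k` with at most `n + 2` variables `z`,
for one fixed set `S ⊆ k` with at least two elements. Then the same is true for all smooth projective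
varieties in `CBuilt n`, of any dimension. Over `k = ℚ` all Tate classes of all smooth projective varieties
are combinations of motivic classes, if and only if the weight complexes of the coverings
`∏_{c ∈ S} (w - c) = ∑_l z_l ∑_{(i, j) ∈ E_l} x_i y_j` are null, for all finite sets `E_l` of pairs.

(2) The weight complex of the covering `∏_{c ∈ S} (w - c) = ∑ x_l f_l(z)` is null if and only if the weight
complex of `f = 0` is. All these coverings are smooth over `k`; and the class `CBuilt n` contains the covering
`∏_{c ∈ S} (w - c) = t(x, y, z)` if there are at most `n + 2` variables `z`, and the covering
`∏_{c ∈ S} (w - c) = ∑ x_l f_l(z)` if there are at most `n + 1` variables `z_i`, or if the scheme `f = 0`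
has dimension at most `n`, or if `f_1, …, f_(n+1)` have degree at most two and all other `f_l` degree at
most one.

(3) The motives of all smooth projective varieties in `CBuilt n`, of any dimension, are motives of
dimension at most `n`, that is, direct summands of finite sums of Tate twists of motives of smooth
projective varieties of dimension at most `n`. So if `G_{ℓ,k}(M) = 𝒢_k(M)` (question Q1) for the motives of
dimension at most `n`, then also for the motives of these varieties. For example, the motivic Tate
conjecture for motives of curves (the Mumford-Tate conjecture for abelian varieties) implies the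
motivic Tate conjecture for all smooth projective varieties in `CBuilt 1`, of any dimension.
-/

set_option autoImplicit false

open CategoryTheory Limits MonoidalCategory AlgebraicGeometry Pool.Agent.Y116.UV
  Pool.Agent.W5h93.EX Pool.Agent.W5h93.WC Pool.Agent.W5h68.CP Pool.Agent.H91.QS
  Pool.Agent.H95.WC

universe v u w r

namespace Pool.Agent.Results.MP_bbcdf5_ag.CoveringsOfAffineSpaces

/-- **The motivic Tate conjecture and coverings of affine spaces.** See the explanations above. -/
theorem result {k : Type} [Field k] [CharZero k] {𝒜 : Type u} [Category.{v} 𝒜] [Preadditive 𝒜]
    [HasZeroObject 𝒜] [HasBinaryBiproducts 𝒜] [MonoidalCategory 𝒜] [MonoidalPreadditive 𝒜]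
    {T : ℤ → 𝒜} (hT : IsTate T) {Ω : Type r} [Ring Ω] {Inv : 𝒜 ⥤ ModuleCat.{w} Ω}
    {e : Inv.obj (T 0)} (hI : IsInvariants Inv e)
    {W : Sch k → HomotopyCategory 𝒜 (ComplexShape.up ℤ)} (hW : IsFlatWeightComplex T W)
    (hc : HasCoverings W) {Q : Sch k → Prop} (hQ : IsClass Q) (hpt : Q (aff k k)) (h : Sch k → 𝒜)
    (hh : ∀ X, Q X → Nonempty (W X ≅ cpx (h X))) :
    CovReduces Q (fun X => TateIn Inv e (h X)) (fun X => Null (TateIn Inv e) (W X).as) ∧
    CovMembers k ∧
    ∀ n, ModelsIn Q n → ∀ X, Q X → CBuilt n X → DimGen T h Q n (h X) :=
  ⟨covReduces_wc (V := tateCls hT hI) (fun l _ hM => TateIn.twist hT.mul hM l)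
      (TateIn.unit hT hI) hW hc hQ h hh, covMembers,
    fun _ hM _ hX hb => dimGen_of_cbuilt hW hc hQ hpt hh hM hX hb⟩

end Pool.Agent.Results.MP_bbcdf5_ag.CoveringsOfAffineSpaces
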