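import Pool.Agent.H39.Mot.Main

/-!
# The motivic Tate conjecture: torus actions, few monomials, finitely many varieties

Let `k` be a finitely generated field of characteristic zero with an embedding in `ℂ`, `ℓ` a prime
number, and `M` the category of motives over `k` in the sense of André or for absolute Hodge cycles, a
semisimple abelian category with Tate twists `N ↦ N(a)`. For a separated scheme `X` of finite type over
`k` let `D.H i X` be the object of `M` given by the graded object of the weight filtration of the
cohomology with compact supports `H^i_c(X)`; for smooth projective `X` it is the motive `h^i(X)`.

For a motive `N` let `tate N` be the equality `G_{ℓ,k}(N) = G_k(N)_{ℚ_ℓ}` of question Q1. It is inherited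
by direct factors (hypothesis `inherit`). Since the equality for a direct sum is stronger than the
equality for the summands, statements on Q1 are made for all finite direct sums `⨁ M_j(a_j)` of Tate twists
of the motives `M_j` of some class of schemes (`SumsHave`).

Let `X` be a closed subscheme of an affine space which is stable under a torus acting diagonally. It is
of complexity at most `n` if each stratum of `X` (given by the vanishing and non-vanishing of the
coordinates) has dimension at most `n` plus the dimension of the orbits of the torus in the stratum.
There is no restriction on the dimension and on the singularities of `X`. Let `𝒢` be any class of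
schemes, for example a class of smooth projective varieties for the sums of the motives of which Q1 is
known. Let `Made 𝒢 n` be the smallest class of schemes which contains `𝒢` and the torus schemes of
complexity at most `n`, and which contains each one of `X`, `Z`, `U` with the other two, for the closed
subschemes `Z` of separated schemes `X` of finite type with complement `U`.

**Theorem.**

1. Let `Q` be a class of smooth proper irreducible schemes over `k` such that the varieties of dimension
   at most `n` have models in `Q` (for example all smooth projective varieties). For every `X` in
   `Made 𝒢 n`, of arbitrary dimension, there is a finite list of schemes `Y`, each of which belongs to `𝒢`,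
   or to `Q` and has dimension at most `n`, and which depends only on `X`, such that for both categories
   of motives the motives `Gr^W H^i_c(X)` are direct factors of finite direct sums of Tate motives and of
   Tate twists of motives `Gr^W H^j_c(Y)`; so Q1 for these direct sums implies Q1 for all finite direct
   sums of Tate twists of the `Gr^W H^i_c(X)`, in particular for all motives `h^i(X)(a)` if `X` is smooth and
   projective.
2. Q1 is true for all finite direct sums of Tate twists of motives `h^i(Y)` of smooth projective varieties
   of dimension at most `n` and of motives of the schemes in `𝒢`, if and only if it is true for those of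
   the schemes in `Made 𝒢 n`.
3. `Made 𝒢 n` contains the schemes given by `c` linearly independent equations which have together
   at most `c + n + 1` monomials, and by any number of additional equations with at most two terms, in
   an affine space of arbitrary dimension (`Sparse n`), and the inverse images of the cones of dimension
   at most `n + 1` under all monomial maps between affine spaces, also with additional equations with at
   most two terms (`Cones n`). (This is known from earlier work.)

For `n = 0` the motives of the varieties of dimension zero are Artin motives. For example Q1 for the sums of
Tate twists of motives of abelian varieties in a class `𝒢` and of Artin motives implies Q1 for all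
smooth projective varieties, of arbitrary dimension, cut into pieces each of which is in `𝒢` or is
given by `c` independent equations with together at most `c + 1` monomials and equations with two terms.
-/

set_option autoImplicit false

open CategoryTheory CategoryTheory.Limits AlgebraicGeometry Pool.Agent.Y116.UV Pool.Agent.Q193.LT
  Pool.Agent.H39.Mot Pool.Agent.W5h68.SP
open Pool.Agent.H89.Dev (IsClass ModelsIn)

universe v u

namespace Pool.Agent.Results.MP_bbcdf5_ag.FewMonomials

/-- **The motivic Tate conjecture, torus actions of complexity at most `n` and equations with few
monomials.** See the explanations above. -/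
theorem result (k : Type) [Field k] [CharZero k] (_hk : (⊤ : Subfield k).FG) (𝒢 : Sch k → Prop) :
    (∀ Q : Sch k → Prop, IsClass Q → ∀ n : ℕ, ModelsIn Q n → ∀ X : Sch k, Made 𝒢 n X →
      ∃ 𝒴 : List (Sch k), (∀ Y ∈ 𝒴, (Q Y ∧ topologicalKrullDim Y.left ≤ n) ∨ 𝒢 Y) ∧
        ∀ (M : Type u) [Category.{v} M] [Abelian M] (D : CompactData k M), IsCompact D →
          Semisimple M →
          (∀ i, FactorOfSum D (Of D (InList 𝒴)) (D.H i X)) ∧
          ∀ tate : M → Prop,
            (∀ {N N' : M} (i : N ⟶ N') (r : N' ⟶ N), i ≫ r = 𝟙 N → tate N' → tate N) →
            SumsHave D (Of D (InList 𝒴)) tate → SumsHave D (Of D fun X' => X' = X) tate) ∧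
    (∀ (M : Type u) [Category.{v} M] [Abelian M] (D : CompactData k M), IsMotives D →
      ∀ tate : M → Prop,
        (∀ {N N' : M} (i : N ⟶ N') (r : N' ⟶ N), i ≫ r = 𝟙 N → tate N' → tate N) →
        ∀ n : ℕ, SumsHave D (Of D (SmallOr n 𝒢)) tate ↔ SumsHave D (Of D (Made 𝒢 n)) tate) ∧
    ∀ n : ℕ, Sparse (k := k) n (Made 𝒢 n) ∧ Cones (k := k) n (Made 𝒢 n) := by
  refine ⟨fun Q hQ n hM X hX => ?_, fun M _ _ D h tate inherit n =>
    sums_made_iff h inherit 𝒢 n, fun n => ⟨sparse_made 𝒢 n, cones_made 𝒢 n⟩⟩
  obtain ⟨L, h1, h2⟩ := fin_motives.{v, u} hQ hM 𝒢 X hX
  refine ⟨L, h1, fun M _ _ D hD hss => ⟨h2 M D hD hss, fun tate inherit h => ?_⟩⟩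
  refine sumsHave_of_gen hD hss inherit (fun N hN => ?_) h
  obtain ⟨X', i, rfl, rfl⟩ := hN
  exact h2 M D hD hss i

end Pool.Agent.Results.MP_bbcdf5_ag.FewMonomials
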