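import Pool.Agent.H92.ZW.Main
import Pool.Agent.H91.QS.Tate

/-!
# The motivic Tate conjecture and completions of partial matrices

Let `k` be a finitely generated field of characteristic zero with the absolute Galois group `Γ` and `𝒜`
the category of motives over `k` in the sense of André or for absolute Hodge cycles, `T l` its Tate
objects, `h(X)` the motive of `X`, and `Inv M = (M_ℓ)^Γ` the space of Galois invariants of the `ℓ`-adic
realization of the motive `M` (the theorem is true over all fields of characteristic zero). The motive
`M` has the property `TateIn` if for all `l` every invariant vector of the `ℓ`-adic realization of `M ⊗ T l`
is a `ℚ_ℓ`-combination of motivic classes. To every separated scheme `X` of finite type over `k` belongs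
its weight complex with compact support `W(X)` in `𝒜` (Gillet and Soulé, Bondarko), a bounded complex of
motives up to homotopy; for smooth projective `X` it is the motive of `X` in degree zero. Hypothesis
`IsWeightComplex`: there are distinguished triangles for closed-open decompositions, `W` of an affine
bundle is a Tate twist of `W` of the base, `W(Spec A)` is a retract of a shift of `W(𝔾_m × Spec A)`, and
`W(Spec k)` is the unit object. A complex is `Null` if it is contractible modulo the morphisms which
factor through motives with the property `TateIn`; since `𝒜` is semisimple this says that the motives
`Gr^W_w H_c^i(X)`, the cohomology of `W(X)`, have the property `TateIn`.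

A partial matrix `Z` over `k` has prescribed elements of `k` at some places and no elements at the other
places. For a partial square matrix `Z` let `glC Z` be the smooth affine scheme of the invertible
completions of `Z`; it is the open subscheme `det ≠ 0` of an affine space, and every coordinate of the
affine space occurs at exactly one place of the matrix. For a partial matrix `Z` of size `m × n` let
`rkC Z` be the affine scheme of the completions of `Z` of rank at most three.

**Theorem.** Let `Q` be the class of the smooth projective varieties over `k` (`ModelsIn`: integral
schemes have birational models in `Q`, Hironaka). The following are equivalent.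
1. All Tate classes of the motives `h(X)(l)` of all smooth projective varieties `X` over `k` are
   combinations of motivic classes.
2. The same is true for the motives `Gr^W_w H_c^i` of the schemes `glC Z` of the invertible completions of
   the partial square matrices `Z` over `k` which have, in each row and in each column, at most three
   places without a prescribed zero (`Three Z`).
3. The same is true for the motives `Gr^W_w H_c^i` of the schemes `rkC Z` of the completions of rank at
   most three of the partial matrices `Z` over `k`.
If `k = ℚ`, it suffices to take in 2. (or in 3.) the partial matrices all of whose prescribed elements are
zero: these are the schemes `glS k Z` and `rkS k Z` of the invertible matrices (of the matrices of rank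
at most three) with zeros at the places of the finite set `Z`; in 2. with at most three other places in
each row and in each column (`ThreeZ Z`). Moreover, every separated scheme `X` of
finite type over `k` is built from finitely many such schemes `glC Z` (and also from finitely many schemes
`rkC Z`) and affine spaces by closed-open decompositions (two out of three), affine bundles and division
by `𝔾_m`; and all Tate classes of the twists of the motive of `X` in `Q` are combinations of motivic
classes if this is true for this finite list. The list depends only on `X`, not on `ℓ` or the category of
motives.

Statement 1 is a consequence of Q1 for all motives over `k`; conversely, Q1 for all motives over `k`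
follows from statement 1 if the `ℓ`-adic representations are semisimple (by a theorem of Moonen this is a
consequence of the Tate conjecture). This comparison is not part of the Lean theorem.
-/

set_option autoImplicit false

open CategoryTheory Limits MonoidalCategory AlgebraicGeometry Pool.Agent.Y116.UV
  Pool.Agent.W5h93.EX Pool.Agent.W5h93.WC Pool.Agent.H91.QS Pool.Agent.H92.ZW

universe v u w r

namespace Pool.Agent.Results.MP_bbcdf5_ag.MatrixCompletions

/-- **The motivic Tate conjecture and completions of partial matrices.** See the explanations above. -/
theorem result {k : Type} [Field k] [CharZero k] {𝒜 : Type u} [Category.{v} 𝒜] [Preadditive 𝒜]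
    [HasZeroObject 𝒜] [HasBinaryBiproducts 𝒜] [MonoidalCategory 𝒜] [MonoidalPreadditive 𝒜]
    {T : ℤ → 𝒜} (hT : IsTate T) {Ω : Type r} [Ring Ω] {Inv : 𝒜 ⥤ ModuleCat.{w} Ω}
    {e : Inv.obj (T 0)} (hI : IsInvariants Inv e)
    {W : Sch k → HomotopyCategory 𝒜 (ComplexShape.up ℤ)} (hW : IsWeightComplex T W)
    {Q : Sch k → Prop} (hQ : IsClass Q) (h : Sch k → 𝒜)
    (hh : ∀ X, Q X → Nonempty (W X ≅ cpx (h X))) :
    MatrixReduces Q (fun X => TateIn Inv e (h X)) (fun X => Null (TateIn Inv e) (W X).as) ∧
      Generated k :=
  ⟨matrixReduces_wc (V := tateCls hT hI) (fun l _ hM => TateIn.twist hT.mul hM l)
    (TateIn.unit hT hI) hW hQ h hh, generated k⟩

end Pool.Agent.Results.MP_bbcdf5_ag.MatrixCompletions
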