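import Pool.Agent.H91.QS.Tate

/-!
# The motivic Tate conjecture and systems of quadratic equations

Let `k` be a finitely generated field of characteristic zero with the absolute Galois group `Γ` and `𝒜`
the category of motives over `k` in the sense of André or for absolute Hodge cycles, `T l` its Tate
objects, `h(X)` the motive of `X`, and `Inv M = (M_ℓ)^Γ` the space of Galois invariants of the `ℓ`-adic
realization of the motive `M` (the theorem is true over all fields of characteristic zero). The motive
`M` has the property `TateIn` if for all `l` every invariant vector of the `ℓ`-adic realization of `M ⊗ T l`
is a `ℚ_ℓ`-combination of motivic classes. To every separated scheme `X` of finite type over `k` belongs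
its weight complex with compact support `W(X)` in `𝒜` (Gillet and Soulé, Bondarko), a bounded complex of
motives up to homotopy; for smooth projective `X` it is the motive of `X` in degree zero. Hypotheses
`IsWeightComplex`, `HasCoverings`: there are distinguished triangles for closed-open decompositions, `W` of
an affine bundle is a Tate twist of `W` of the base, `W(Spec A)` is a retract of a shift of
`W(𝔾_m × Spec A)` and of the weight complexes of the coverings `s ^ d = u`, `u` a unit, and `W(Spec k)` is
the unit object. A complex is `Null` if it is contractible modulo the morphisms which factor through
motives with the property `TateIn`; since `𝒜` is semisimple this says that the motives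
`Gr^W_w H_c^i(X)`, the cohomology of `W(X)`, have the property `TateIn`.

Let `Built k n` be the smallest class of schemes which contains the affine schemes of dimension at most
`n` and is closed under closed-open decompositions (two out of three), affine bundles (in both
directions), division by `𝔾_m` and descent along the coverings `s ^ d = u`. We show:

(1) `Built k n` contains all schemes given by `r + 1` quadratic equations and any number of linear
equations in any number of variables over an affine base `Spec A`, if `dim A + r ≤ n`. It contains all
closed subschemes of projective spaces which are the intersection of `n + 1` quadrics and hyperplanes.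

(2) All Tate classes of the motives `h(X)(l)` of the smooth projective varieties `X` of dimension at most
`n` are combinations of motivic classes, if and only if all Tate classes in the cohomology with compact
supports of the schemes in `Built k n` are; and then the same is true for all smooth projective
varieties in `Built k n`, of any dimension. It follows from the same statement for the affine schemes
given by `n + 2` quadratic equations.

(3) The motives of all smooth projective varieties in `Built k n`, of any dimension, are motives of
dimension at most `n`, that is, direct summands of finite sums of Tate twists of motives of smooth
projective varieties of dimension at most `n`. So if `G_{ℓ,k}(M) = 𝒢_k(M)` (question Q1) for the motives of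
dimension at most `n`, then also for the motives of these varieties. For example, the motivic Tate
conjecture for motives of curves (the Mumford-Tate conjecture for abelian varieties) implies the
motivic Tate conjecture for all smooth projective varieties, of any dimension, which have a
decomposition into locally closed pieces each given by one quadratic equation over a curve or two over
`k`, and by any number of linear equations; and the motivic Tate conjecture for motives of surfaces
implies it for all intersections of three quadrics, all families of intersections of two quadrics over
curves and all quadric fibrations over surfaces, with arbitrary degenerate fibres.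
-/

set_option autoImplicit false

open CategoryTheory Limits MonoidalCategory AlgebraicGeometry Pool.Agent.Y116.UV
  Pool.Agent.W5h93.EX Pool.Agent.W5h93.WC Pool.Agent.W5h68.CP Pool.Agent.H91.QS

universe v u w r

namespace Pool.Agent.Results.MP_bbcdf5_ag.QuadraticSystems

/-- **The motivic Tate conjecture and systems of quadratic equations.** See the explanations above. -/
theorem result {k : Type} [Field k] [CharZero k] {𝒜 : Type u} [Category.{v} 𝒜] [Preadditive 𝒜]
    [HasZeroObject 𝒜] [HasBinaryBiproducts 𝒜] [MonoidalCategory 𝒜] [MonoidalPreadditive 𝒜]
    {T : ℤ → 𝒜} (hT : IsTate T) {Ω : Type r} [Ring Ω] {Inv : 𝒜 ⥤ ModuleCat.{w} Ω}
    {e : Inv.obj (T 0)} (hI : IsInvariants Inv e)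
    {W : Sch k → HomotopyCategory 𝒜 (ComplexShape.up ℤ)} (hW : IsWeightComplex T W)
    (hc : HasCoverings W) {Q : Sch k → Prop} (hQ : IsClass Q) (hpt : Q (aff k k)) (h : Sch k → 𝒜)
    (hh : ∀ X, Q X → Nonempty (W X ≅ cpx (h X))) :
    (∀ n, AffineQuadrics k n (Built k n) ∧ ProjectiveQuadrics k n (Built k n)) ∧
    QuadReduces Q (fun X => TateIn Inv e (h X)) (fun X => Null (TateIn Inv e) (W X).as) ∧
    ∀ n, ModelsIn Q n → ∀ X, Q X → Built k n X → DimGen T h Q n (h X) :=
  ⟨fun n => ⟨affineQuadrics_built two_ne_zero n, projectiveQuadrics_built two_ne_zero n⟩,
    quadReduces_wc (V := tateCls hT hI) (fun l _ hM => TateIn.twist hT.mul hM l)
      (TateIn.unit hT hI) hW hc hQ h hh,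
    fun _ hM _ hX hb => dimGen_of_built hW hc hQ hpt hh hM hX hb⟩

end Pool.Agent.Results.MP_bbcdf5_ag.QuadraticSystems
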